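import Mathlib
import Pool.Agent.Lib.helper21.Xray

open MeasureTheory Set

namespace Pool.Agent.Results.MP_113557_an.Counter

/-- The divergent beam transform (directed X-ray) of `f` at `p` in the direction `u`. -/
noncomputable def beam {n : ℕ} (f : EuclideanSpace ℝ (Fin n) → ℝ)
    (p u : EuclideanSpace ℝ (Fin n)) : ℝ :=
  ∫ t in Ioi (0 : ℝ), f (p + t • u)

open Pool.Agent.Lib.Helper21 in
theorem result : ∃ (f : EuclideanSpace ℝ (Fin 2) → ℝ) (P : Set (EuclideanSpace ℝ (Fin 2))),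
    Measurable f ∧ (∃ C : ℝ, ∀ x, |f x| ≤ C) ∧ (∃ R : ℝ, ∀ x, R < ‖x‖ → f x = 0) ∧
    P.Infinite ∧
    (∀ p ∈ P, ∀ u : EuclideanSpace ℝ (Fin 2), ‖u‖ = 1 →
      IntegrableOn (fun t : ℝ => f (p + t • u)) (Ioi 0) ∧ beam f p u = 0) ∧
    ¬ (f =ᵐ[volume] 0) := by
  refine ⟨Xray.ff, Xray.pt '' {d : ℝ | 0 < d ∧ Xray.AA d = 0}, Xray.meas_ff, ?_,
    ⟨5, Xray.supp_ff⟩, Xray.zeros_infinite.image Xray.pt_inj.injOn, ?_, Xray.ff_ne⟩
  · obtain ⟨C, hC⟩ := Xray.bdd_F0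
    exact ⟨C, fun x => hC _ _⟩
  · rintro _ ⟨d, hd, rfl⟩ u _
    exact Xray.ray_ff hd.1 hd.2 u

end Pool.Agent.Results.MP_113557_an.Counter
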